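import Pool.Agent.Work.MP_bec1e1_lv_helper15.PlantInterface

/-!
# Block A_BASEP: mean of the base under the modified law, from BASE, CHI, MGF, PHI
-/

set_option autoImplicit false
set_option maxHeartbeats 400000

open Filter Topology
open scoped BigOperators

namespace Pool.Agent.LCSV
namespace BASEPAux

open Pool.Agent.LCSE

variable {k : ℕ}

lemma ind_nonneg (P : Prop) : 0 ≤ ind P := by unfold ind; split_ifs <;> norm_num
lemma ind_le_one (P : Prop) : ind P ≤ 1 := by unfold ind; split_ifs <;> norm_num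

lemma ind_mono {P Q : Prop} (h : P → Q) : ind P ≤ ind Q := by
  unfold ind
  split_ifs with h1 h2
  · exact le_rfl
  · exact absurd (h h1) h2
  · exact zero_le_one
  · exact le_rfl

lemma Exc_congr {s T : ℕ} {g : List (Fin k) → ℝ} {f h : List (List (Fin k)) → ℝ}
    (hf : ∀ l : List (List (Fin k)), l.length = T → (∀ w ∈ l, w.length = s) → f l = h l) :
    Exc k s g T f = Exc k s g T h := by
  induction T generalizing f h with
  | zero => exact hf [] rfl (by simp)
  | succ T ih =>
    simp only [Exc]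
    refine Ex_congr fun w hw => ?_
    congr 1
    refine ih fun l hl hl2 => hf (w :: l) (by simp [hl]) ?_
    intro v hv
    rcases List.mem_cons.mp hv with h1 | h1
    · rw [h1]; exact hw
    · exact hl2 v h1

lemma Exc_mono {s T : ℕ} {g : List (Fin k) → ℝ} (hg : ∀ w, w.length = s → 0 ≤ g w)
    {f h : List (List (Fin k)) → ℝ}
    (hf : ∀ l : List (List (Fin k)), l.length = T → (∀ w ∈ l, w.length = s) → f l ≤ h l) :
    Exc k s g T f ≤ Exc k s g T h := by
  induction T generalizing f h with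
  | zero => exact hf [] rfl (by simp)
  | succ T ih =>
    simp only [Exc]
    refine Ex_mono fun w hw => mul_le_mul_of_nonneg_left ?_ (hg w hw)
    refine ih fun l hl hl2 => hf (w :: l) (by simp [hl]) ?_
    intro v hv
    rcases List.mem_cons.mp hv with h1 | h1
    · rw [h1]; exact hw
    · exact hl2 v h1

lemma Exc_const_mul (s T : ℕ) (g : List (Fin k) → ℝ) (c : ℝ) (f : List (List (Fin k)) → ℝ) :
    Exc k s g T (fun l => c * f l) = c * Exc k s g T f := by
  induction T generalizing f with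
  | zero => rfl
  | succ T ih =>
    simp only [Exc]
    simp only [ih]
    rw [← Ex_const_mul]
    exact Ex_congr fun w _ => by ring

lemma Exc_add (s T : ℕ) (g : List (Fin k) → ℝ) (f h : List (List (Fin k)) → ℝ) :
    Exc k s g T (fun l => f l + h l) = Exc k s g T f + Exc k s g T h := by
  induction T generalizing f h with
  | zero => rfl
  | succ T ih =>
    simp only [Exc]
    simp only [ih]
    rw [← Ex_add]
    exact Ex_congr fun w _ => by ring

lemma Exc_const (s T : ℕ) {g : List (Fin k) → ℝ} (hg : Ex k s g = 1) (c : ℝ) :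
    Exc k s g T (fun _ => c) = c := by
  induction T with
  | zero => rfl
  | succ T ih =>
    simp only [Exc]
    simp only [ih]
    rw [Ex_mul_const, hg, one_mul]

lemma Exc_one_flatten (s T : ℕ) (f : List (Fin k) → ℝ) :
    Exc k s (fun _ => 1) T (fun xs => f xs.flatten) = Ex k (T * s) f := by
  induction T generalizing f with
  | zero => simp [Exc]
  | succ T ih =>
    simp only [Exc, one_mul, List.flatten_cons]
    rw [show (T + 1) * s = s + T * s by ring, Ex_append]
    refine Ex_congr fun w _ => ?_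
    exact ih fun v => f (w ++ v)

lemma isDens_one (hk : 0 < k) (s : ℕ) : IsDens k s (fun _ => 1) :=
  ⟨fun _ _ => zero_le_one, Ex_const hk s 1⟩

/-- removing a block of length `w.length` costs at most `w.length` -/
lemma L_remove (a w b y : List (Fin k)) : L (a ++ w ++ b) y ≤ L (a ++ b) y + w.length := by
  obtain ⟨l, hl, h1, h2⟩ := exists_L (a ++ w ++ b) y
  rw [← hl]
  obtain ⟨l1, l2, rfl, h3, h4⟩ := List.sublist_append_iff.mp h1
  obtain ⟨l3, l4, rfl, h5, h6⟩ := List.sublist_append_iff.mp h3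
  have h7 : (l3 ++ l2).Sublist (a ++ b) := h5.append h4
  have h8 : (l3 ++ l2).Sublist y :=
    ((List.sublist_append_left l3 l4).append (List.Sublist.refl l2)).trans h2
  have h9 := le_L h7 h8
  have h10 := h6.length_le
  simp only [List.length_append] at h9 ⊢
  omega

lemma L_replace (a w w' b y : List (Fin k)) :
    (L (a ++ w ++ b) y : ℝ) ≤ L (a ++ w' ++ b) y + w.length := by
  have h1 := L_remove a w b y
  have h2 : L (a ++ b) y ≤ L (a ++ w' ++ b) y :=
    L_mono ((List.sublist_append_left a w').append (List.Sublist.refl b)) (List.Sublist.refl y)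
  have h3 : L (a ++ w ++ b) y ≤ L (a ++ w' ++ b) y + w.length := by omega
  exact_mod_cast h3

/-- moment generating function for letters -/
lemma mgf_letters (hMGF : Stmt_MGF) (hk : 0 < k) (b : ℕ) (f : List (Fin k) → ℝ)
    (hf : ∀ (a w w' c : List (Fin k)), w.length = 1 → w'.length = 1 →
      f (a ++ w ++ c) ≤ f (a ++ w' ++ c) + 1) (t : ℝ) :
    Ex k b (fun y => Real.exp (t * (f y - Ex k b f))) ≤ Real.exp (t ^ 2 * b / 8) := by
  have h := hMGF k 1 b (fun _ => 1) (fun xs => f xs.flatten) 1 hk (isDens_one hk 1) zero_le_one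
    (by
      intro l₁ l₂ w w' _ _ _ hw hw'
      have e1 : (l₁ ++ w :: l₂).flatten = l₁.flatten ++ w ++ l₂.flatten := by simp
      have e2 : (l₁ ++ w' :: l₂).flatten = l₁.flatten ++ w' ++ l₂.flatten := by simp
      rw [e1, e2, abs_le]
      have h1 := hf l₁.flatten w w' l₂.flatten hw hw'
      have h2 := hf l₁.flatten w' w l₂.flatten hw' hw
      constructor <;> linarith) t
  rw [Exc_one_flatten 1 b f, mul_one] at h
  rw [Exc_one_flatten 1 b (fun y => Real.exp (t * (f y - Ex k b f))), mul_one] at h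
  simpa using h

/-- the mean is at least `level - √(l² T + b)` if the probability of being below the level is at
most `1 / 4` -/
lemma mean_ge (hMGF : Stmt_MGF) (hk : 0 < k) (l T b : ℕ) (hl : 1 ≤ l) (hT : 1 ≤ T)
    (g : List (Fin k) → ℝ) (hg : IsDens k l g) (level : ℝ)
    (hP : (Exc k l g T fun xs => Ex k b fun y => ind ((L xs.flatten y : ℝ) ≤ level)) ≤ 1 / 4) :
    level - √((l : ℝ) ^ 2 * T + b) ≤ Exc k l g T fun xs => Ex k b fun y => (L xs.flatten y : ℝ) := by
  set V : ℝ := (l : ℝ) ^ 2 * T + b with hV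
  have hlR : (1 : ℝ) ≤ l := by exact_mod_cast hl
  have hTR : (1 : ℝ) ≤ T := by exact_mod_cast hT
  have hV0 : 0 < V := by positivity
  set G : List (List (Fin k)) → ℝ := fun xs => Ex k b fun y => (L xs.flatten y : ℝ) with hG
  set μ : ℝ := Exc k l g T G with hμ
  set t : ℝ := 4 / √V with ht
  have hsV : 0 < √V := Real.sqrt_pos.mpr hV0
  have ht0 : 0 < t := by positivity
  -- upper bound for the moment generating function
  have h1 : Exc k l g T (fun xs => Ex k b fun y => Real.exp (t * ((L xs.flatten y : ℝ) - μ))) ≤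
      Real.exp (t ^ 2 * V / 8) := by
    have h2 : Exc k l g T (fun xs => Ex k b fun y => Real.exp (t * ((L xs.flatten y : ℝ) - μ))) ≤
        Exc k l g T (fun xs => Real.exp (t ^ 2 * b / 8) * Real.exp (t * (G xs - μ))) := by
      refine Exc_mono hg.nonneg fun xs _ _ => ?_
      have h3 : ∀ y : List (Fin k), Real.exp (t * ((L xs.flatten y : ℝ) - μ)) =
          Real.exp (t * (G xs - μ)) * Real.exp (t * ((L xs.flatten y : ℝ) - G xs)) := by
        intro y
        rw [← Real.exp_add]
        congr 1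
        ring
      simp only [h3]
      rw [Ex_const_mul, mul_comm]
      apply mul_le_mul_of_nonneg_right _ (Real.exp_pos _).le
      refine mgf_letters hMGF hk b (fun y => (L xs.flatten y : ℝ)) ?_ t
      intro a w w' c hw _
      have := L_replace a w w' c xs.flatten
      rw [hw] at this
      simp only [L_comm xs.flatten]
      simpa using this
    refine h2.trans ?_
    rw [Exc_const_mul]
    have h4 := hMGF k l T g G l hk hg (Nat.cast_nonneg l)
      (by
        intro l₁ l₂ w w' _ _ _ hw hw'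
        have e1 : (l₁ ++ w :: l₂).flatten = l₁.flatten ++ w ++ l₂.flatten := by simp
        have e2 : (l₁ ++ w' :: l₂).flatten = l₁.flatten ++ w' ++ l₂.flatten := by simp
        have key : ∀ u u' : List (Fin k), u.length = l →
            (Ex k b fun y => (L (l₁.flatten ++ u ++ l₂.flatten) y : ℝ)) ≤
            (Ex k b fun y => (L (l₁.flatten ++ u' ++ l₂.flatten) y : ℝ)) + l := by
          intro u u' hu
          have h5 : (Ex k b fun y => (L (l₁.flatten ++ u ++ l₂.flatten) y : ℝ)) ≤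
            (Ex k b fun y => ((L (l₁.flatten ++ u' ++ l₂.flatten) y : ℝ) + l)) := by
            refine Ex_mono fun y _ => ?_
            have := L_replace l₁.flatten u u' l₂.flatten y
            rw [hu] at this
            exact this
          rwa [Ex_add, Ex_const hk] at h5
        have h6 := key w w' hw
        have h7 := key w' w hw'
        simp only [hG, e1, e2]
        rw [abs_le]
        constructor <;> linarith) t
    calc Real.exp (t ^ 2 * b / 8) * Exc k l g T (fun xs => Real.exp (t * (G xs - μ)))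
        ≤ Real.exp (t ^ 2 * b / 8) * Real.exp (t ^ 2 * (l : ℝ) ^ 2 * T / 8) :=
          mul_le_mul_of_nonneg_left h4 (Real.exp_pos _).le
      _ = Real.exp (t ^ 2 * V / 8) := by
          rw [← Real.exp_add, hV]; congr 1; ring
  -- lower bound
  have h8 : 3 / 4 * Real.exp (t * (level - μ)) ≤
      Exc k l g T (fun xs => Ex k b fun y => Real.exp (t * ((L xs.flatten y : ℝ) - μ))) := by
    have h9 : Exc k l g T (fun xs => Real.exp (t * (level - μ)) +
        (- Real.exp (t * (level - μ))) * Ex k b fun y => ind ((L xs.flatten y : ℝ) ≤ level)) ≤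
        Exc k l g T (fun xs => Ex k b fun y => Real.exp (t * ((L xs.flatten y : ℝ) - μ))) := by
      refine Exc_mono hg.nonneg fun xs _ _ => ?_
      rw [← Ex_const_mul]
      nth_rewrite 1 [← Ex_const hk b (Real.exp (t * (level - μ)))]
      rw [← Ex_add]
      refine Ex_mono fun y _ => ?_
      unfold ind
      split_ifs with h
      · have := Real.exp_pos (t * ((L xs.flatten y : ℝ) - μ))
        linarith
      · rw [mul_zero, add_zero]
        apply Real.exp_le_exp.mpr
        apply mul_le_mul_of_nonneg_left _ ht0.le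
        push Not at h
        linarith
    rw [Exc_add, Exc_const l T hg.one, Exc_const_mul] at h9
    have h10 := mul_le_mul_of_nonneg_left hP (Real.exp_pos (t * (level - μ))).le
    linarith
  by_contra hcon
  push Not at hcon
  have h11 : √V < level - μ := by linarith
  have h12 : t * √V = 4 := by rw [ht]; field_simp
  have h13 : (4 : ℝ) ≤ t * (level - μ) := by
    rw [← h12]
    exact mul_le_mul_of_nonneg_left h11.le ht0.le
  have h14 : t ^ 2 * V / 8 = 2 := by
    have : t ^ 2 * V = (t * √V) ^ 2 := by rw [mul_pow, Real.sq_sqrt hV0.le]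
    rw [this, h12]; norm_num
  rw [h14] at h1
  have h15 : 3 / 4 * Real.exp 4 ≤ Real.exp 2 := by
    have := Real.exp_le_exp.mpr h13
    linarith
  have h16 : Real.exp 4 = Real.exp 2 * Real.exp 2 := by rw [← Real.exp_add]; norm_num
  have h17 : (3 : ℝ) ≤ Real.exp 2 := by
    have := Real.add_one_le_exp (2 : ℝ)
    linarith
  rw [h16] at h15
  nlinarith [Real.exp_pos (2 : ℝ)]

/-- second moment of `gmin` -/
lemma gmin_sq (hk : 0 < k) (l : ℕ) (g₁ : List (Fin k) → ℝ) (hg : Ex k l g₁ = 1) (θ : ℝ)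
    (hθ1 : θ ≤ 1 / 2) :
    (Ex k l fun w => gmin θ g₁ w ^ 2) ≤ 1 + 4 * θ ^ 2 * Ex k l fun w => g₁ w ^ 2 := by
  have h1 : (Ex k l fun w => gmin θ g₁ w ^ 2) =
      (1 / (1 - θ) ^ 2) * ((1 - 2 * θ) + θ ^ 2 * Ex k l fun w => g₁ w ^ 2) := by
    have h2 : ∀ w : List (Fin k), gmin θ g₁ w ^ 2 =
        (1 / (1 - θ) ^ 2) * ((1 + (-(2 * θ)) * g₁ w) + θ ^ 2 * g₁ w ^ 2) := by
      intro w
      unfold gmin
      rw [div_pow]
      ring
    simp only [h2]
    rw [Ex_const_mul, Ex_add, Ex_add, Ex_const hk, Ex_const_mul, Ex_const_mul, hg]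
    ring
  have h0 : 0 ≤ Ex k l fun w => g₁ w ^ 2 := Ex_nonneg fun w _ => sq_nonneg _
  set S := Ex k l fun w => g₁ w ^ 2
  have h3 : (1 : ℝ) / 4 ≤ (1 - θ) ^ 2 := by nlinarith
  rw [h1, one_div, inv_mul_le_iff₀ (by positivity)]
  nlinarith [mul_nonneg (mul_nonneg (sq_nonneg θ) h0) (sub_nonneg.mpr h3), sq_nonneg θ]

lemma gmin_dens (hk : 0 < k) (l : ℕ) (g₁ : List (Fin k) → ℝ) (hg : IsDens k l g₁) (θ : ℝ)
    (hθ0 : 0 ≤ θ) (hθ1 : θ ≤ 1 / 2) (M : ℝ) (hM : ∀ w : List (Fin k), w.length = l → g₁ w ≤ M)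
    (hθM : θ * M ≤ 1) : IsDens k l (gmin θ g₁) := by
  constructor
  · intro w hw
    unfold gmin
    apply div_nonneg _ (by linarith)
    have := mul_le_mul_of_nonneg_left (hM w hw) hθ0
    linarith
  · have h2 : ∀ w : List (Fin k), gmin θ g₁ w =
        (1 / (1 - θ)) * (1 + (-θ) * g₁ w) := by
      intro w
      unfold gmin
      ring
    have h3 : (Ex k l fun w => gmin θ g₁ w) = 1 := by
      simp only [h2]
      rw [Ex_const_mul, Ex_add, Ex_const hk, Ex_const_mul, hg.one]
      have : (1 : ℝ) - θ ≠ 0 := by linarith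
      field_simp
      ring
    exact h3

/-- a nonnegative function is bounded by `k ^ n` times its mean -/
lemma le_pow_mul_Ex (hk : 0 < k) (n : ℕ) (f : List (Fin k) → ℝ)
    (hf : ∀ w, w.length = n → 0 ≤ f w) (w : List (Fin k)) (hw : w.length = n) :
    f w ≤ (k : ℝ) ^ n * Ex k n f := by
  have h1 := Ex_indicator_eq w f
  rw [hw] at h1
  have h2 : Ex k n (fun v => if v = w then f v else 0) ≤ Ex k n f := by
    refine Ex_mono fun v hv => ?_
    split_ifs
    · exact le_rfl
    · exact hf v hv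
  have hkR : (0 : ℝ) < k := by exact_mod_cast hk
  rw [h1] at h2
  have h3 : (k : ℝ) ^ n * (((k : ℝ)⁻¹) ^ n * f w) = f w := by
    rw [← mul_assoc, ← mul_pow, mul_inv_cancel₀ hkR.ne', one_pow, one_mul]
  rw [← h3]
  exact mul_le_mul_of_nonneg_left h2 (by positivity)

end BASEPAux

open Pool.Agent.LCSE BASEPAux

set_option maxHeartbeats 2000000 in
theorem stmt_BASEP (hBASE : Stmt_BASE) (hCHI : Stmt_CHI) (hMGF : Stmt_MGF) (hPHI : Stmt_PHI) :
    Stmt_BASEP := by
  intro k hk2 hR
  have hk : 0 < k := by omega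
  have hkR : (0 : ℝ) < k := by exact_mod_cast hk
  obtain ⟨C₀, hC₀, hB⟩ := hBASE k hk2 hR
  have P := hPHI k hk2
  refine ⟨1 + C₀ + √(1 + k), by positivity, ?_⟩
  intro l g₁ hl hg₁ A τ hA hτ T₀
  have hlR : (1 : ℝ) ≤ l := by exact_mod_cast hl
  set M : ℝ := (k : ℝ) ^ l with hM
  have hM0 : 0 < M := by positivity
  have hgM : ∀ w : List (Fin k), w.length = l → g₁ w ≤ M := by
    intro w hw
    have := le_pow_mul_Ex hk l g₁ hg₁.nonneg w hw
    rwa [hg₁.one, mul_one] at this
  set S : ℝ := Ex k l fun w => g₁ w ^ 2 with hS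
  have hS0 : 0 ≤ S := Ex_nonneg fun w _ => sq_nonneg _
  set D : ℝ := Real.exp (4 * A ^ 2 * S) with hD
  have hD0 : 0 < D := Real.exp_pos _
  set Q : ℝ := (2 * A + 2 * (A * M)) ^ 2 with hQ
  have hρ1 := P.rho_one
  have hρk := P.rho_lt
  obtain ⟨m, b₀, hm, hflat, hrho, hP⟩ := hB (1 / (16 * D)) (τ / 2) (by positivity) (by positivity)
    (l * (T₀ + ⌈Q⌉₊ + ⌈2 * rho k * l / τ⌉₊ + 1))
  -- the number of cells
  obtain ⟨r, hr, hTr⟩ : ∃ r : ℕ, r ≤ l ∧ (m / l + 1) * l = m + r := by
    refine ⟨l - m % l, Nat.sub_le _ _, ?_⟩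
    have h1 := Nat.div_add_mod m l
    have h2 := Nat.mod_lt m (by omega : 0 < l)
    have h3 : (m / l + 1) * l = l * (m / l) + l := by ring
    omega
  have hmT : T₀ + ⌈Q⌉₊ + ⌈2 * rho k * l / τ⌉₊ + 1 ≤ m / l := by
    rw [Nat.le_div_iff_mul_le (by omega)]
    rw [mul_comm]; exact hm
  set T : ℕ := m / l + 1 with hT
  have hT1 : 1 ≤ T := by omega
  have hTR : (1 : ℝ) ≤ T := by exact_mod_cast hT1
  have hT0R : (0 : ℝ) < T := by linarith
  have hTm : (T : ℝ) * l = m + r := by exact_mod_cast hTr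
  have hrR : (r : ℝ) ≤ l := by exact_mod_cast hr
  have hr0 : (0 : ℝ) ≤ r := Nat.cast_nonneg _
  have hm0 : (0 : ℝ) ≤ m := Nat.cast_nonneg _
  have hb0 : (0 : ℝ) ≤ b₀ := Nat.cast_nonneg _
  have hTQ : Q ≤ T := by
    have h1 : ⌈Q⌉₊ ≤ T := by omega
    exact (Nat.le_ceil Q).trans (by exact_mod_cast h1)
  have hTτ : 2 * rho k * l / τ ≤ m := by
    have h1 : ⌈2 * rho k * l / τ⌉₊ ≤ m := by
      have h2 : ⌈2 * rho k * l / τ⌉₊ ≤ m / l := by omega
      exact h2.trans (Nat.div_le_self m l)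
    exact (Nat.le_ceil _).trans (by exact_mod_cast h1)
  have hsT : 0 < √(T : ℝ) := Real.sqrt_pos.mpr hT0R
  have hsT1 : 1 ≤ √(T : ℝ) := Real.one_le_sqrt.mpr hTR
  have hAT : 2 * A + 2 * (A * M) ≤ √(T : ℝ) := Real.le_sqrt_of_sq_le hTQ
  set Θ : ℝ := A / √(T : ℝ) with hΘ
  have hAM : 0 < A * M := by positivity
  have hΘ1 : Θ ≤ 1 / 2 := by
    rw [hΘ, div_le_iff₀ hsT]; linarith
  have hΘM : Θ * M ≤ 1 / 2 := by
    rw [hΘ, div_mul_eq_mul_div, div_le_iff₀ hsT]; linarith
  have hΘT : Θ ^ 2 * T = A ^ 2 := by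
    rw [hΘ, div_pow, Real.sq_sqrt hT0R.le]; field_simp
  have hΘ0 : 0 ≤ Θ := by positivity
  -- flat directions
  obtain ⟨hf1, hf2⟩ := (P.flat_iff m b₀ hm0 hb0).mp hflat
  have hTlR : ((T * l : ℕ) : ℝ) = m + r := by rw [hTr]; push_cast; ring
  have hbR : ((b₀ + r : ℕ) : ℝ) = b₀ + r := by push_cast; ring
  have hρr : (r : ℝ) ≤ rho k * r := le_mul_of_one_le_left hr0 hρ1
  have hflat' : Flat k ((T * l : ℕ) : ℝ) ((b₀ + r : ℕ) : ℝ) := by
    rw [hTlR, hbR, P.flat_iff _ _ (by linarith) (by linarith)]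
    constructor <;> (rw [mul_add]; linarith)
  refine ⟨T, b₀ + r, by omega, hflat', ?_, hΘ1, ?_, ?_⟩
  · rw [hTm, hbR]
    have h1 : 2 * rho k * l ≤ m * τ := by rwa [div_le_iff₀ hτ] at hTτ
    have h2 : rho k * r ≤ rho k * l := mul_le_mul_of_nonneg_left hrR (by linarith)
    have h3 : 0 ≤ τ * r := by positivity
    linarith
  · intro w hw
    exact (mul_le_mul_of_nonneg_left (hgM w hw) hΘ0).trans hΘM
  · -- the mean
    intro θ hθ0 hθΘ
    have hθ1 : θ ≤ 1 / 2 := hθΘ.trans hΘ1
    have hθM : θ * M ≤ 1 :=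
      (mul_le_mul_of_nonneg_right hθΘ hM0.le).trans (hΘM.trans (by norm_num))
    have hθT : θ ^ 2 * T ≤ A ^ 2 := by
      rw [← hΘT]
      exact mul_le_mul_of_nonneg_right (pow_le_pow_left₀ hθ0 hθΘ 2) hT0R.le
    have hg : IsDens k l (gmin θ g₁) := gmin_dens hk l g₁ hg₁ θ hθ0 hθ1 M hgM hθM
    set level : ℝ := al k * ((m : ℝ) + b₀) - C₀ * √(m : ℝ) with hlevel
    set B : List (List (Fin k)) → ℝ := fun xs => Ex k (b₀ + r) fun y =>
      ind ((L xs.flatten y : ℝ) ≤ level) with hBdef
    have hExs : Exs k l T B ≤ 1 / (16 * D) := by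
      refine le_trans ?_ hP
      unfold Exs
      rw [hBdef, Exc_one_flatten l T (fun x => Ex k (b₀ + r) fun y => ind ((L x y : ℝ) ≤ level)),
        hTr, Ex_append]
      refine Ex_mono fun w _ => Ex_le_const hk fun v _ => ?_
      rw [Ex_append]
      refine Ex_mono fun y _ => Ex_le_const hk fun y' _ => ?_
      apply ind_mono
      intro h
      refine le_trans ?_ h
      have : L w y ≤ L (w ++ v) (y ++ y') :=
        L_mono (List.sublist_append_left w v) (List.sublist_append_left y y')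
      exact_mod_cast this
    have hκ : (Ex k l fun w => gmin θ g₁ w ^ 2) ≤ 1 + 4 * θ ^ 2 * S :=
      gmin_sq hk l g₁ hg₁.one θ hθ1
    have hchi := hCHI k l T (gmin θ g₁) (4 * θ ^ 2 * S) B hk hg hκ (by positivity) (by
      intro xs
      exact ⟨Ex_nonneg fun y _ => ind_nonneg _, Ex_le_const hk fun y _ => ind_le_one _⟩)
    have hpow : (1 + 4 * θ ^ 2 * S) ^ T ≤ D := by
      calc (1 + 4 * θ ^ 2 * S) ^ T ≤ (Real.exp (4 * θ ^ 2 * S)) ^ T := by
            apply pow_le_pow_left₀ (by positivity)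
            have := Real.add_one_le_exp (4 * θ ^ 2 * S)
            linarith
        _ ≤ D := by
            rw [← Real.exp_nat_mul, hD]
            apply Real.exp_le_exp.mpr
            have h3 : (T : ℝ) * (4 * θ ^ 2 * S) = 4 * (θ ^ 2 * T) * S := by ring
            rw [h3]
            exact mul_le_mul_of_nonneg_right (mul_le_mul_of_nonneg_left hθT (by norm_num)) hS0
    have hB0 : 0 ≤ Exs k l T B := by
      unfold Exs
      have h1 : Exc k l (fun _ => 1) T (fun _ => (0 : ℝ)) ≤ Exc k l (fun _ => 1) T B :=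
        Exc_mono (fun _ _ => zero_le_one) fun xs _ _ => Ex_nonneg fun y _ => ind_nonneg _
      rwa [Exc_const l T (Ex_const hk l 1)] at h1
    have hsq : (Exc k l (gmin θ g₁) T B) ^ 2 ≤ 1 / 16 := by
      refine hchi.trans ?_
      calc (1 + 4 * θ ^ 2 * S) ^ T * Exs k l T B ≤ D * (1 / (16 * D)) :=
            mul_le_mul hpow hExs hB0 hD0.le
        _ = 1 / 16 := by field_simp
    have hP4 : Exc k l (gmin θ g₁) T B ≤ 1 / 4 := by
      have h1 : (Exc k l (gmin θ g₁) T B) ^ 2 ≤ (1 / 4 : ℝ) ^ 2 := by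
        refine hsq.trans (le_of_eq ?_); norm_num
      exact (abs_le_of_sq_le_sq' h1 (by norm_num)).2
    have hmean := mean_ge hMGF hk l T (b₀ + r) hl hT1 (gmin θ g₁) hg level hP4
    refine le_trans ?_ hmean
    rw [hTm, hbR]
    -- numerical estimates
    have hlT : (l : ℝ) ≤ l * √(T : ℝ) := le_mul_of_one_le_right (by linarith) hsT1
    have h6 : (T : ℝ) * l ≤ (l : ℝ) ^ 2 * T := by
      have h3 : (l : ℝ) ≤ (l : ℝ) ^ 2 := by
        rw [sq]; exact le_mul_of_one_le_right (by linarith) hlR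
      have h4 := mul_le_mul_of_nonneg_right h3 hT0R.le
      linarith
    have h1 : √(m : ℝ) ≤ l * √(T : ℝ) := by
      rw [← Real.sqrt_sq (by positivity : (0 : ℝ) ≤ l), ← Real.sqrt_mul (by positivity)]
      apply Real.sqrt_le_sqrt
      linarith
    have h2 : √((l : ℝ) ^ 2 * T + (b₀ + r)) ≤ √(1 + k) * (l * √(T : ℝ)) := by
      rw [← Real.sqrt_sq (by positivity : (0 : ℝ) ≤ l), ← Real.sqrt_mul (by positivity),
        ← Real.sqrt_mul (by positivity), Real.sqrt_sq (by positivity : (0 : ℝ) ≤ l)]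
      apply Real.sqrt_le_sqrt
      have h3 : (b₀ : ℝ) + r ≤ k * (T * l) := by
        rw [hTm]
        have h4 : rho k * m ≤ k * m := mul_le_mul_of_nonneg_right hρk.le hm0
        have h5 : rho k * r ≤ k * r := mul_le_mul_of_nonneg_right hρk.le hr0
        linarith
      have h7 : (k : ℝ) * (T * l) ≤ k * ((l : ℝ) ^ 2 * T) := mul_le_mul_of_nonneg_left h6 hkR.le
      linarith
    have h8 : al k * ((m : ℝ) + r + (b₀ + r)) = al k * (m + b₀) + gam k * r := by
      unfold al; ring
    have h9 : gam k * r ≤ l := by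
      have h3 : gam k * r ≤ 1 * r := mul_le_mul_of_nonneg_right P.gam_lt.le hr0
      linarith
    rw [h8]
    have h10 : C₀ * √(m : ℝ) ≤ C₀ * (l * √(T : ℝ)) := mul_le_mul_of_nonneg_left h1 hC₀.le
    have h11 : (1 + C₀ + √(1 + (k : ℝ))) * l * √(T : ℝ) =
        l * √(T : ℝ) + C₀ * (l * √(T : ℝ)) + √(1 + (k : ℝ)) * (l * √(T : ℝ)) := by ring
    rw [h11, hlevel]
    linarith

end Pool.Agent.LCSV
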